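import Pool.Agent.W583.FKM.Dir

/-!
# The angle `ang w z` and the function `b` (towards FK-GEOH)
-/

set_option autoImplicit false

open scoped ComplexConjugate Topology
open Complex

namespace Pool.Agent.W583.FKM

open Pool.Agent.W809.FKM

theorem ang_nonneg (w z : ℂ) : 0 ≤ ang w z := by
  unfold ang
  split_ifs with h
  · exact h
  · have := Complex.neg_pi_lt_arg (z / w)
    have := Real.pi_pos
    linarith

theorem ang_lt (w z : ℂ) : ang w z < 2 * Real.pi := by
  unfold ang
  have := Real.pi_pos
  split_ifs with h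
  · have := Complex.arg_le_pi (z / w)
    linarith
  · linarith [not_le.1 h]

theorem exp_ang (w z : ℂ) : exp (I * (ang w z : ℂ)) = exp (I * (arg (z / w) : ℂ)) := by
  unfold ang
  split_ifs with h
  · rfl
  · push_cast
    rw [mul_add, Complex.exp_add]
    have : exp (I * (2 * (Real.pi : ℂ))) = 1 := by
      rw [mul_comm]; exact Complex.exp_two_pi_mul_I
    rw [this, mul_one]

theorem polar {w z : ℂ} (hw : ‖w‖ = 1) : z = (‖z‖ : ℂ) * w * exp (I * (ang w z : ℂ)) := by
  have hw0 : w ≠ 0 := by
    intro h0; rw [h0, norm_zero] at hw; exact zero_ne_one hw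
  have h1 := Complex.norm_mul_exp_arg_mul_I (z / w)
  rw [norm_div, hw, div_one] at h1
  rw [exp_ang, mul_comm I]
  have h2 : z = (z / w) * w := by field_simp
  calc z = (z / w) * w := h2
    _ = ((‖z‖ : ℂ) * exp ((arg (z / w) : ℂ) * I)) * w := by rw [h1]
    _ = _ := by ring

theorem ang_scale (w z : ℂ) {r : ℝ} (hr : 0 < r) : ang w ((r : ℂ) * z) = ang w z := by
  unfold ang
  have : arg ((r : ℂ) * z / w) = arg (z / w) := by
    rw [mul_div_assoc]; exact Complex.arg_real_mul _ hr
  rw [this]

theorem ang_self {w : ℂ} (hw : ‖w‖ = 1) : ang w w = 0 := by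
  have hw0 : w ≠ 0 := by
    intro h0; rw [h0, norm_zero] at hw; exact zero_ne_one hw
  unfold ang
  rw [div_self hw0, Complex.arg_one]
  simp

/-- off the ray `w` the angle is given by a continuous formula -/
theorem ang_eq (w z : ℂ) (h : -(z / w) ∈ Complex.slitPlane) :
    ang w z = arg (-(z / w)) + Real.pi := by
  set u : ℂ := z / w with hu
  unfold ang
  rw [← hu]
  rcases lt_trichotomy u.im 0 with him | him | him
  · have h1 := Complex.arg_neg_eq_arg_add_pi_of_im_neg him
    have h2 : ¬ 0 ≤ arg u := by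
      rw [Complex.arg_nonneg_iff]; exact not_le.2 him
    rw [if_neg h2, h1]; ring
  · have hre : u.re < 0 := by
      rcases (Complex.mem_slitPlane_iff.1 h) with h3 | h3
      · simpa using h3
      · exact absurd (by simp [him]) h3
    have h1 : arg u = Real.pi := Complex.arg_eq_pi_iff.2 ⟨hre, him⟩
    have h2 : arg (-u) = 0 := by
      rw [Complex.arg_eq_zero_iff]
      constructor
      · simp; exact hre.le
      · simp [him]
    rw [h1, if_pos Real.pi_pos.le, h2, zero_add]
  · have h1 := Complex.arg_neg_eq_arg_sub_pi_of_im_pos him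
    have h2 : 0 ≤ arg u := by
      rw [Complex.arg_nonneg_iff]; exact him.le
    rw [if_pos h2, h1]; ring

theorem ang_continuousAt {w z : ℂ} (h : -(z / w) ∈ Complex.slitPlane) :
    ContinuousAt (ang w) z := by
  have h1 : ContinuousAt (fun s : ℂ => -(s / w)) z :=
    (continuous_id.div_const w).neg.continuousAt
  have h2 : ContinuousAt (fun s : ℂ => arg (-(s / w)) + Real.pi) z :=
    (ContinuousAt.comp (f := fun s : ℂ => -(s / w)) (g := arg)
      (Complex.continuousAt_arg h) h1).add continuousAt_const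
  refine h2.congr ?_
  have h3 : ∀ᶠ s in 𝓝 z, -(s / w) ∈ Complex.slitPlane :=
    h1.eventually (Complex.isOpen_slitPlane.mem_nhds h)
  filter_upwards [h3] with s hs
  exact (ang_eq w s hs).symm

theorem slit_of_ne {w z : ℂ} (hw : ‖w‖ = 1) (hz : ‖z‖ = 1) (hne : z ≠ w) :
    -(z / w) ∈ Complex.slitPlane := by
  have hw0 : w ≠ 0 := by
    intro h0; rw [h0, norm_zero] at hw; exact zero_ne_one hw
  rw [Complex.mem_slitPlane_iff]
  by_contra hcon
  push Not at hcon
  obtain ⟨h1, h2⟩ := hcon
  have h3 : (z / w).im = 0 := by simpa using h2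
  have h4 : 0 ≤ (z / w).re := by simpa using h1
  have h5 : ‖z / w‖ = 1 := by rw [norm_div, hw, hz, div_one]
  have h6 : z / w = ((z / w).re : ℂ) := by
    apply Complex.ext
    · simp
    · simp [h3]
  have h7 : (z / w).re = 1 := by
    rw [h6, Complex.norm_real, Real.norm_of_nonneg h4] at h5
    exact h5
  rw [h7] at h6
  apply hne
  rw [div_eq_iff hw0] at h6
  simpa using h6

theorem ang_inj {w z z' : ℂ} (hw : ‖w‖ = 1) (hz : ‖z‖ = 1) (hz' : ‖z'‖ = 1)
    (h : ang w z = ang w z') : z = z' := by
  have h1 := polar (z := z) hw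
  have h2 := polar (z := z') hw
  rw [hz, h] at h1
  rw [hz'] at h2
  rw [h1]; exact h2.symm

end Pool.Agent.W583.FKM
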