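import Pool.Agent.W583.FKM.Ang

/-!
# The functions `η` and `B` on the circle (towards FK-GEOH)
-/

set_option autoImplicit false

open scoped ComplexConjugate Topology
open Complex

namespace Pool.Agent.W583.FKM

open Pool.Agent.W809.FKM

/-- clamp of `(‖s - w‖ - D/4)/(D/2)` to `[0,1]` -/
noncomputable def eta (D : ℝ) (w s : ℂ) : ℝ := max 0 (min 1 ((‖s - w‖ - D / 4) / (D / 2)))

theorem eta_nonneg (D : ℝ) (w s : ℂ) : 0 ≤ eta D w s := le_max_left _ _

theorem eta_le_one (D : ℝ) (w s : ℂ) : eta D w s ≤ 1 :=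
  max_le zero_le_one (min_le_left _ _)

theorem eta_zero {D : ℝ} (hD : 0 < D) {w s : ℂ} (h : ‖s - w‖ ≤ D / 4) : eta D w s = 0 := by
  unfold eta
  have h1 : (‖s - w‖ - D / 4) / (D / 2) ≤ 0 :=
    div_nonpos_of_nonpos_of_nonneg (by linarith) (by linarith)
  exact max_eq_left ((min_le_right _ _).trans h1)

theorem eta_one {D : ℝ} (hD : 0 < D) {w s : ℂ} (h : 3 * D / 4 ≤ ‖s - w‖) : eta D w s = 1 := by
  unfold eta
  have h1 : 1 ≤ (‖s - w‖ - D / 4) / (D / 2) := by
    rw [le_div_iff₀ (by linarith)]; linarith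
  rw [min_eq_left h1]
  exact max_eq_right zero_le_one

theorem eta_one' {w w' s : ℂ} (hD : 0 < ‖w' - w‖) (h : ‖s - w'‖ ≤ ‖w' - w‖ / 4) :
    eta ‖w' - w‖ w s = 1 := by
  refine eta_one hD ?_
  have h1 : ‖w' - w‖ ≤ ‖s - w'‖ + ‖s - w‖ := by
    have e : w' - w = -(s - w') + (s - w) := by ring
    calc ‖w' - w‖ = ‖-(s - w') + (s - w)‖ := by rw [← e]
      _ ≤ ‖-(s - w')‖ + ‖s - w‖ := norm_add_le _ _
      _ = _ := by rw [norm_neg]
  linarith

theorem eta_lip {D : ℝ} (hD : 0 < D) (w s s' : ℂ) :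
    |eta D w s - eta D w s'| ≤ 2 / D * ‖s - s'‖ := by
  unfold eta
  have h1 : |max 0 (min 1 ((‖s - w‖ - D / 4) / (D / 2))) -
      max 0 (min 1 ((‖s' - w‖ - D / 4) / (D / 2)))| ≤
      |(‖s - w‖ - D / 4) / (D / 2) - (‖s' - w‖ - D / 4) / (D / 2)| := by
    have a1 := abs_max_sub_max_le_abs (min 1 ((‖s - w‖ - D / 4) / (D / 2)))
      (min 1 ((‖s' - w‖ - D / 4) / (D / 2))) 0
    have a2 := abs_min_sub_min_le_max 1 ((‖s - w‖ - D / 4) / (D / 2)) 1
      ((‖s' - w‖ - D / 4) / (D / 2))
    rw [sub_self, abs_zero] at a2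
    rw [max_comm 0, max_comm 0]
    refine a1.trans (a2.trans (max_le (abs_nonneg _) le_rfl))
  refine h1.trans ?_
  have e : (‖s - w‖ - D / 4) / (D / 2) - (‖s' - w‖ - D / 4) / (D / 2) =
      2 / D * (‖s - w‖ - ‖s' - w‖) := by
    field_simp
    ring
  rw [e, abs_mul, abs_of_pos (by positivity : 0 < 2 / D)]
  refine mul_le_mul_of_nonneg_left ?_ (by positivity)
  have := abs_norm_sub_norm_le (s - w) (s' - w)
  have e2 : s - w - (s' - w) = s - s' := by ring
  rwa [e2] at this

theorem eta_continuous {D : ℝ} (w : ℂ) : Continuous (eta D w) := by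
  unfold eta
  exact continuous_const.max (continuous_const.min
    (((continuous_id.sub continuous_const).norm.sub continuous_const).div_const _))

/-- the function `b` on directions -/
noncomputable def BF (w w' s : ℂ) : ℝ :=
  if ang w s < ang w w' then
    2 * Real.pi * (eta ‖w' - w‖ w s) ^ 2 - ang w s - arg w
  else 2 * Real.pi - ang w s - arg w

theorem BF_bound (w w' s : ℂ) : |BF w w' s| ≤ 5 * Real.pi := by
  have h1 := ang_nonneg w s
  have h2 := ang_lt w s
  have h3 := Complex.arg_le_pi w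
  have h4 := Complex.neg_pi_lt_arg w
  have h5 := eta_nonneg ‖w' - w‖ w s
  have h6 := eta_le_one ‖w' - w‖ w s
  have hpi := Real.pi_pos
  have h7 : (eta ‖w' - w‖ w s) ^ 2 ≤ 1 := by nlinarith
  have h8 : 0 ≤ (eta ‖w' - w‖ w s) ^ 2 := sq_nonneg _
  have h9 : 2 * Real.pi * (eta ‖w' - w‖ w s) ^ 2 ≤ 2 * Real.pi * 1 :=
    mul_le_mul_of_nonneg_left h7 (by positivity)
  have h10 : 0 ≤ 2 * Real.pi * (eta ‖w' - w‖ w s) ^ 2 := by positivity
  unfold BF
  rw [abs_le]
  split_ifs
  · constructor <;> linarith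
  · constructor <;> linarith

theorem BF_cont {w w' s : ℂ} (hw : ‖w‖ = 1) (hw' : ‖w'‖ = 1) (hww : w ≠ w') (hs : ‖s‖ = 1) :
    ContinuousAt (BF w w') s := by
  have hD : 0 < ‖w' - w‖ := norm_pos_iff.2 (sub_ne_zero.2 hww.symm)
  have hw0 : w ≠ 0 := by
    intro h0; rw [h0, norm_zero] at hw; exact zero_ne_one hw
  have hpi := Real.pi_pos
  have hθ0 : 0 < ang w w' := by
    refine lt_of_le_of_ne (ang_nonneg w w') fun h => hww ?_
    refine ang_inj hw hw hw' ?_
    rw [ang_self hw]; exact h
  have hθ1 := ang_lt w w'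
  by_cases hsw : s = w
  · -- near `w`
    have hcont : ContinuousAt (fun z : ℂ => -arg (z / w) - arg w) s := by
      have h1 : ContinuousAt (fun z : ℂ => z / w) s := (continuous_id.div_const w).continuousAt
      have h2 : s / w ∈ Complex.slitPlane := by
        rw [hsw, div_self hw0]; exact Complex.one_mem_slitPlane
      have h3 := ContinuousAt.comp (f := fun z : ℂ => z / w) (g := arg)
        (Complex.continuousAt_arg h2) h1
      exact h3.neg.sub continuousAt_const
    refine hcont.congr ?_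
    have h1 : ContinuousAt (fun z : ℂ => arg (z / w)) s := by
      have h1 : ContinuousAt (fun z : ℂ => z / w) s := (continuous_id.div_const w).continuousAt
      have h2 : s / w ∈ Complex.slitPlane := by
        rw [hsw, div_self hw0]; exact Complex.one_mem_slitPlane
      exact ContinuousAt.comp (f := fun z : ℂ => z / w) (g := arg)
        (Complex.continuousAt_arg h2) h1
    have h0 : arg (s / w) = 0 := by rw [hsw, div_self hw0, Complex.arg_one]
    have h2 : ∀ᶠ z in 𝓝 s, arg (z / w) < ang w w' := by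
      refine h1.eventually_lt continuousAt_const ?_
      rw [h0]; exact hθ0
    have h3 : ∀ᶠ z in 𝓝 s, ang w w' - 2 * Real.pi < arg (z / w) := by
      refine ContinuousAt.eventually_lt continuousAt_const h1 ?_
      rw [h0]; linarith
    have h4 : ∀ᶠ z in 𝓝 s, ‖z - w‖ ≤ ‖w' - w‖ / 4 := by
      have h5 : ContinuousAt (fun z : ℂ => ‖z - w‖) s :=
        (continuous_id.sub continuous_const).norm.continuousAt
      have h6 : ∀ᶠ z in 𝓝 s, ‖z - w‖ < ‖w' - w‖ / 4 := by
        refine h5.eventually_lt continuousAt_const ?_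
        change ‖s - w‖ < ‖w' - w‖ / 4
        rw [hsw, sub_self, norm_zero]; positivity
      filter_upwards [h6] with z hz using hz.le
    filter_upwards [h2, h3, h4] with z a2 a3 a4
    rw [BF, eta_zero hD a4]
    by_cases h : 0 ≤ arg (z / w)
    · have e : ang w z = arg (z / w) := by rw [ang, if_pos h]
      rw [e, if_pos a2]; ring
    · have e : ang w z = arg (z / w) + 2 * Real.pi := by rw [ang, if_neg h]
      rw [e, if_neg (by linarith)]; ring
  · have hac : ContinuousAt (ang w) s := ang_continuousAt (slit_of_ne hw hs hsw)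
    have c1 : ContinuousAt (fun z : ℂ => 2 * Real.pi * (eta ‖w' - w‖ w z) ^ 2 - ang w z - arg w)
        s := by
      have h1 : ContinuousAt (fun z : ℂ => 2 * Real.pi * (eta ‖w' - w‖ w z) ^ 2) s :=
        (continuous_const.mul ((eta_continuous w).pow 2)).continuousAt
      exact (h1.sub hac).sub continuousAt_const
    have c2 : ContinuousAt (fun z : ℂ => 2 * Real.pi - ang w z - arg w) s :=
      (continuousAt_const.sub hac).sub continuousAt_const
    by_cases hsw' : s = w'
    · refine c2.congr ?_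
      have h4 : ∀ᶠ z in 𝓝 s, ‖z - w'‖ ≤ ‖w' - w‖ / 4 := by
        have h5 : ContinuousAt (fun z : ℂ => ‖z - w'‖) s :=
          (continuous_id.sub continuous_const).norm.continuousAt
        have h6 : ∀ᶠ z in 𝓝 s, ‖z - w'‖ < ‖w' - w‖ / 4 := by
          refine h5.eventually_lt continuousAt_const ?_
          change ‖s - w'‖ < ‖w' - w‖ / 4
          rw [hsw', sub_self, norm_zero]; positivity
        filter_upwards [h6] with z hz using hz.le
      filter_upwards [h4] with z a4
      rw [BF, eta_one' hD a4]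
      split_ifs
      · ring
      · rfl
    · have hne : ang w s ≠ ang w w' := fun h => hsw' (ang_inj hw hs hw' h)
      rcases lt_or_gt_of_ne hne with h | h
      · refine c1.congr ?_
        have h1 : ∀ᶠ z in 𝓝 s, ang w z < ang w w' :=
          hac.eventually_lt continuousAt_const h
        filter_upwards [h1] with z hz
        rw [BF, if_pos hz]
      · refine c2.congr ?_
        have h1 : ∀ᶠ z in 𝓝 s, ang w w' < ang w z :=
          ContinuousAt.eventually_lt continuousAt_const hac h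
        filter_upwards [h1] with z hz
        rw [BF, if_neg (not_lt.2 hz.le)]

theorem BF_unif {w w' : ℂ} (hw : ‖w‖ = 1) (hw' : ‖w'‖ = 1) (hww : w ≠ w') {ε : ℝ} (hε : 0 < ε) :
    ∃ δ : ℝ, 0 < δ ∧ ∀ s s' : ℂ, ‖s‖ = 1 → ‖s'‖ = 1 → ‖s - s'‖ ≤ δ →
      |BF w w' s - BF w w' s'| ≤ ε := by
  have hc : ContinuousOn (BF w w') (Metric.sphere 0 1) := fun s hs =>
    (BF_cont hw hw' hww (by simpa using hs)).continuousWithinAt
  have hu := (isCompact_sphere (0 : ℂ) 1).uniformContinuousOn_of_continuous hc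
  rw [Metric.uniformContinuousOn_iff] at hu
  obtain ⟨δ, hδ, H⟩ := hu ε hε
  refine ⟨δ / 2, by positivity, fun s s' hs hs' hss => ?_⟩
  have := H s (by simpa using hs) s' (by simpa using hs') (by
    rw [dist_eq_norm]; linarith)
  rw [Real.dist_eq] at this
  exact this.le

end Pool.Agent.W583.FKM
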