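import Pool.Agent.W809.FKM.Stms

/-!
# Parabolic regions have deep rays (FK-DEEP)
-/

set_option autoImplicit false

open scoped ComplexConjugate Topology
open Complex

namespace Pool.Agent.W583.FKM

open Pool.Agent.W809.FKM

theorem rpow_sub_one_le {s β γ : ℝ} (hs : 0 ≤ s) (hβ : 0 < β) (hγ : β ≤ γ) :
    s ^ β - 1 ≤ s ^ γ := by
  rcases le_total s 1 with h | h
  · have h1 : s ^ β ≤ 1 := Real.rpow_le_one hs h hβ.le
    have h2 : 0 ≤ s ^ γ := Real.rpow_nonneg hs _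
    linarith
  · have h1 : s ^ β ≤ s ^ γ := Real.rpow_le_rpow_of_exponent_le h hγ
    linarith

theorem deep : S_DEEP := by
  rintro Ω ⟨S, ⟨α, c0, w, hα, hw, rfl⟩, hS⟩ hne
  refine ⟨w, hw, (1 / 2 : ℝ) ^ (min 1 α), min 1 α, 1 + ‖c0‖, by positivity,
    lt_min one_pos hα, fun t ht => ?_⟩
  have hβ : 0 < min 1 α := lt_min one_pos hα
  rw [Metric.le_infDist hne]
  intro p hp
  have hw0 : w ≠ 0 := by
    intro h0; rw [h0, norm_zero] at hw; exact zero_ne_one hw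
  set y : ℂ := w⁻¹ * (p - c0) with hy
  have hpy : p = c0 + w * y := by
    rw [hy, ← mul_assoc, mul_inv_cancel₀ hw0, one_mul]; ring
  have hyS : ¬ (0 ≤ y.re ∧ |y.im| ≤ y.re ^ α) := fun h => hp (hS ⟨y, h, hpy.symm⟩)
  have e1 : (1 / 2 : ℝ) ^ (min 1 α) * t ^ (min 1 α) = (t / 2) ^ (min 1 α) := by
    rw [← Real.mul_rpow (by norm_num) ht]; congr 1; ring
  rw [e1]
  have ht2 : 0 ≤ t / 2 := by linarith
  have key : (t / 2) ^ (min 1 α) - 1 ≤ ‖(t : ℂ) - y‖ := by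
    by_cases h : y.re < t / 2
    · have h1 : |((t : ℂ) - y).re| ≤ ‖(t : ℂ) - y‖ := Complex.abs_re_le_norm _
      have h2 : ((t : ℂ) - y).re = t - y.re := by simp
      rw [h2] at h1
      have h3 := rpow_sub_one_le ht2 hβ (min_le_left 1 α)
      rw [Real.rpow_one] at h3
      have h4 := le_abs_self (t - y.re)
      linarith
    · have h' : t / 2 ≤ y.re := not_lt.1 h
      have hre : 0 ≤ y.re := ht2.trans h'
      have him : y.re ^ α < |y.im| := by
        by_contra h5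
        exact hyS ⟨hre, not_lt.1 h5⟩
      have h1 : |((t : ℂ) - y).im| ≤ ‖(t : ℂ) - y‖ := Complex.abs_im_le_norm _
      have h2 : ((t : ℂ) - y).im = -y.im := by simp
      rw [h2, abs_neg] at h1
      have h3 := rpow_sub_one_le ht2 hβ (min_le_right 1 α)
      have h4 : (t / 2) ^ α ≤ y.re ^ α := Real.rpow_le_rpow ht2 h' hα.le
      linarith
  have h5 : ‖(t : ℂ) - y‖ = ‖w * ((t : ℂ) - y)‖ := by rw [norm_mul, hw, one_mul]
  have h6 : w * ((t : ℂ) - y) = ((t : ℂ) * w - p) + c0 := by rw [hpy]; ring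
  have h7 : ‖w * ((t : ℂ) - y)‖ ≤ ‖(t : ℂ) * w - p‖ + ‖c0‖ := by
    rw [h6]; exact norm_add_le _ _
  rw [dist_eq_norm]
  linarith

end Pool.Agent.W583.FKM
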