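import Pool.Agent.W583.FKM.Geo

/-!
# Directions of sites, slowly varying functions
-/

set_option autoImplicit false

open scoped ComplexConjugate Topology
open Complex

namespace Pool.Agent.W583.FKM

open Pool.Agent.W809.FKM

theorem norm_expI (r : ℝ) : ‖exp (I * (r : ℂ))‖ = 1 := by
  rw [mul_comm]; exact Complex.norm_exp_ofReal_mul_I r

theorem norm_expI_sub (a b : ℝ) : ‖exp (I * (a : ℂ)) - exp (I * (b : ℂ))‖ ≤ |a - b| := by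
  have e : exp (I * (a : ℂ)) - exp (I * (b : ℂ)) =
      exp (I * (b : ℂ)) * (exp (I * ((a - b : ℝ) : ℂ)) - 1) := by
    rw [mul_sub, mul_one, ← Complex.exp_add]
    congr 2
    push_cast; ring
  rw [e, norm_mul, norm_expI, one_mul]
  exact Real.norm_exp_I_mul_ofReal_sub_one_le

theorem dir_lip {z z' : ℂ} (hz : z ≠ 0) (hz' : z' ≠ 0) :
    ‖z / (‖z‖ : ℂ) - z' / (‖z'‖ : ℂ)‖ ≤ 2 * ‖z - z'‖ / ‖z‖ := by
  have h1 : 0 < ‖z‖ := norm_pos_iff.2 hz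
  have h2 : 0 < ‖z'‖ := norm_pos_iff.2 hz'
  have c1 : (‖z‖ : ℂ) ≠ 0 := by exact_mod_cast h1.ne'
  have c2 : (‖z'‖ : ℂ) ≠ 0 := by exact_mod_cast h2.ne'
  have e : z / (‖z‖ : ℂ) - z' / (‖z'‖ : ℂ) =
      (z - z') / (‖z‖ : ℂ) + z' * (((‖z'‖ - ‖z‖) / (‖z‖ * ‖z'‖) : ℝ) : ℂ) := by
    push_cast
    field_simp
    ring
  rw [e]
  refine (norm_add_le _ _).trans ?_
  have a1 : ‖(z - z') / (‖z‖ : ℂ)‖ = ‖z - z'‖ / ‖z‖ := by
    rw [norm_div, Complex.norm_real, Real.norm_of_nonneg h1.le]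
  have a2 : ‖z' * (((‖z'‖ - ‖z‖) / (‖z‖ * ‖z'‖) : ℝ) : ℂ)‖ ≤ ‖z - z'‖ / ‖z‖ := by
    rw [norm_mul, Complex.norm_real, Real.norm_eq_abs, abs_div, abs_mul, abs_of_pos h1,
      abs_of_pos h2]
    have a3 : ‖z'‖ * (|‖z'‖ - ‖z‖| / (‖z‖ * ‖z'‖)) = |‖z'‖ - ‖z‖| / ‖z‖ := by
      field_simp
    rw [a3]
    refine div_le_div_of_nonneg_right ?_ h1.le
    rw [norm_sub_rev z z']
    exact abs_norm_sub_norm_le _ _
  rw [a1]
  have a4 : 2 * ‖z - z'‖ / ‖z‖ = ‖z - z'‖ / ‖z‖ + ‖z - z'‖ / ‖z‖ := by ring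
  rw [a4]
  exact add_le_add le_rfl a2

/-- directions of nearby far sites are close -/
theorem dir_close {ρ ε : ℝ} (hρ : 0 < ρ) (hε : 0 < ε) :
    ∃ n : ℝ, 0 < n ∧ ∀ x y : W809.FKM.Lat, n ≤ ‖pt x‖ → dst x y ≤ ρ →
      pt x ≠ 0 ∧ pt y ≠ 0 ∧ ‖pt x / (‖pt x‖ : ℂ) - pt y / (‖pt y‖ : ℂ)‖ ≤ ε := by
  refine ⟨max (2 * ρ / ε) (ρ + 1), lt_max_of_lt_right (by linarith), fun x y hx hxy => ?_⟩
  have h1 : 2 * ρ / ε ≤ ‖pt x‖ := (le_max_left _ _).trans hx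
  have h2 : ρ + 1 ≤ ‖pt x‖ := (le_max_right _ _).trans hx
  have hx0 : 0 < ‖pt x‖ := by linarith
  have hxz : pt x ≠ 0 := norm_pos_iff.1 hx0
  have hd : ‖pt x - pt y‖ ≤ ρ := hxy
  have hy0 : pt y ≠ 0 := by
    intro h0
    rw [h0, sub_zero] at hd
    linarith
  refine ⟨hxz, hy0, (dir_lip hxz hy0).trans ?_⟩
  rw [div_le_iff₀ hx0]
  rw [div_le_iff₀ hε] at h1
  calc 2 * ‖pt x - pt y‖ ≤ 2 * ρ := by linarith
    _ ≤ ‖pt x‖ * ε := h1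
    _ = ε * ‖pt x‖ := mul_comm _ _

theorem exp_arg {z : ℂ} (hz : z ≠ 0) : exp (I * (arg z : ℂ)) = z / (‖z‖ : ℂ) := by
  have h1 : (‖z‖ : ℂ) ≠ 0 := by
    have := norm_pos_iff.2 hz
    exact_mod_cast this.ne'
  rw [eq_div_iff h1, mul_comm, mul_comm I]
  exact Complex.norm_mul_exp_arg_mul_I z

theorem sv_arg : SV (fun x => exp (I * (arg (pt x) : ℂ))) := by
  intro ρ ε hρ hε
  obtain ⟨n, hn, H⟩ := dir_close hρ hε
  refine ⟨n, fun x y hx hxy => ?_⟩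
  obtain ⟨h1, h2, h3⟩ := H x y hx hxy
  change ‖exp (I * (arg (pt x) : ℂ)) - exp (I * (arg (pt y) : ℂ))‖ ≤ ε
  rw [exp_arg h1, exp_arg h2]
  exact h3

theorem sv_exp {b : W809.FKM.Lat → ℝ} (hb : SV (fun x => (b x : ℂ))) (s : ℝ) :
    SV (fun x => exp (I * ((s * b x : ℝ) : ℂ))) := by
  intro ρ ε hρ hε
  obtain ⟨n, hn⟩ := hb ρ (ε / (|s| + 1)) hρ (by positivity)
  refine ⟨n, fun x y hx hxy => ?_⟩
  refine (norm_expI_sub _ _).trans ?_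
  have h1 := hn x y hx hxy
  have h2 : ‖(b x : ℂ) - (b y : ℂ)‖ = |b x - b y| := by
    rw [← Complex.ofReal_sub, Complex.norm_real, Real.norm_eq_abs]
  rw [h2, le_div_iff₀ (by positivity)] at h1
  rw [← mul_sub, abs_mul]
  have h3 : 0 ≤ |b x - b y| := abs_nonneg _
  nlinarith [abs_nonneg s]

theorem SV_mul {f g : W809.FKM.Lat → ℂ} (hf : SV f) (hg : SV g) (bf : ∀ x, ‖f x‖ ≤ 1)
    (bg : ∀ x, ‖g x‖ ≤ 1) : SV (fun x => f x * g x) := by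
  intro ρ ε hρ hε
  obtain ⟨n1, h1⟩ := hf ρ (ε / 2) hρ (by positivity)
  obtain ⟨n2, h2⟩ := hg ρ (ε / 2) hρ (by positivity)
  refine ⟨max n1 n2, fun x y hx hxy => ?_⟩
  have k1 := h1 x y ((le_max_left _ _).trans hx) hxy
  have k2 := h2 x y ((le_max_right _ _).trans hx) hxy
  have e : f x * g x - f y * g y = (f x - f y) * g x + f y * (g x - g y) := by ring
  change ‖f x * g x - f y * g y‖ ≤ ε
  rw [e]
  refine (norm_add_le _ _).trans ?_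
  rw [norm_mul, norm_mul]
  have l1 : ‖f x - f y‖ * ‖g x‖ ≤ ε / 2 * 1 :=
    mul_le_mul k1 (bg x) (norm_nonneg _) (by positivity)
  have l2 : ‖f y‖ * ‖g x - g y‖ ≤ 1 * (ε / 2) :=
    mul_le_mul (bf y) k2 (norm_nonneg _) zero_le_one
  linarith

end Pool.Agent.W583.FKM
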