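import Pool.Agent.W583.FKM.Deep

/-!
# The geometric statement (FK-GEO)
-/

set_option autoImplicit false

open scoped ComplexConjugate Topology
open Complex

namespace Pool.Agent.W583.FKM

open Pool.Agent.W809.FKM

theorem hasPar_nonempty {Ω : Set ℂ} (h : HasPar Ω) : Ω.Nonempty := by
  obtain ⟨S, ⟨α, c0, w, hα, hw, rfl⟩, hS⟩ := h
  refine ⟨c0 + w * 0, hS ⟨0, ⟨le_rfl, ?_⟩, rfl⟩⟩
  rw [Complex.zero_im, Complex.zero_re, abs_zero]
  exact Real.rpow_nonneg le_rfl _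

theorem deep_large {c β C : ℝ} (hc : 0 < c) (hβ : 0 < β) (r : ℝ) :
    ∃ n : ℝ, ∀ t : ℝ, n ≤ t → r ≤ c * t ^ β - C := by
  have h1 : Filter.Tendsto (fun t : ℝ => c * t ^ β) Filter.atTop Filter.atTop :=
    (tendsto_rpow_atTop hβ).const_mul_atTop hc
  obtain ⟨n, hn⟩ := (Filter.eventually_atTop.1 (h1.eventually_ge_atTop (r + C)))
  exact ⟨n, fun t ht => by have := hn t ht; linarith⟩

theorem pt_ne_zero {x : W809.FKM.Lat} (h : x ≠ 0) : pt x ≠ 0 := by
  intro h0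
  apply h
  have h1 := abs_fst_le x
  have h2 := abs_snd_le x
  rw [h0, norm_zero] at h1 h2
  have h3 : (x.1 : ℝ) = 0 := abs_eq_zero.1 (le_antisymm h1 (abs_nonneg _))
  have h4 : (x.2 : ℝ) = 0 := abs_eq_zero.1 (le_antisymm h2 (abs_nonneg _))
  exact Prod.ext (by exact_mod_cast h3) (by exact_mod_cast h4)

theorem geo (h1 : S_DEEP) (h2 : S_CROSS) (h3 : S_ANGC) (h4 : S_GEOH) (h5 : S_FRONT) : S_GEO := by
  intro Ω hp hp'
  have hne : Ω.Nonempty := hasPar_nonempty hp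
  have hne' : Ωᶜ.Nonempty := hasPar_nonempty hp'
  obtain ⟨w', hw', D'⟩ := h1 Ω hp hne'
  obtain ⟨w, hw, D⟩ := h1 Ωᶜ hp' (by rwa [compl_compl])
  obtain ⟨c1, β1, C1, hc1, hβ1, H1⟩ := id D'
  obtain ⟨c2, β2, C2, hc2, hβ2, H2⟩ := id D
  rw [compl_compl] at H2
  have hww : w ≠ w' := by
    intro e
    obtain ⟨n1, hn1⟩ := deep_large (C := C1) hc1 hβ1 1
    obtain ⟨n2, hn2⟩ := deep_large (C := C2) hc2 hβ2 1
    set t : ℝ := max 0 (max n1 n2) with ht
    have k1 := H1 t (le_max_left _ _)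
    have k2 := H2 t (le_max_left _ _)
    have k3 := hn1 t ((le_max_left _ _).trans (le_max_right _ _))
    have k4 := hn2 t ((le_max_right _ _).trans (le_max_right _ _))
    rw [← e] at k1
    by_cases hm : (t : ℂ) * w ∈ Ω
    · rw [Metric.infDist_zero_of_mem hm] at k2
      linarith
    · rw [Metric.infDist_zero_of_mem (show (t : ℂ) * w ∈ Ωᶜ from hm)] at k1
      linarith
  refine ⟨{x | ang w (pt x) < ang w w'}, ?_, h4 Ω w w' _ hw hw' hww D' D (fun x _ => Iff.rfl),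
    h4 Ωᶜ w' w _ hw' hw hww.symm D (by rwa [compl_compl])
      (fun x hx => h3 w w' (pt x) hw hw' hww (pt_ne_zero hx))⟩
  set β : ℝ := min (min β1 β2) 1 with hβ
  have hβ0 : 0 < β := lt_min (lt_min hβ1 hβ2) one_pos
  have hβ_1 : β ≤ 1 := min_le_right _ _
  have hβ_b1 : β ≤ β1 := (min_le_left _ _).trans (min_le_left _ _)
  have hβ_b2 : β ≤ β2 := (min_le_left _ _).trans (min_le_right _ _)
  set c : ℝ := min c1 c2 with hc
  have hc0 : 0 < c := lt_min hc1 hc2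
  set C : ℝ := |C1| + |C2| with hC
  have hC0 : 0 ≤ C := add_nonneg (abs_nonneg _) (abs_nonneg _)
  have hCC1 : C1 ≤ C := (le_abs_self _).trans (le_add_of_nonneg_right (abs_nonneg _))
  have hCC2 : C2 ≤ C := (le_abs_self _).trans (le_add_of_nonneg_left (abs_nonneg _))
  set K : ℝ := 3 + C / c + 1 / c with hK
  have hK0 : 0 < K := by positivity
  refine ⟨1 / K, β, by positivity, hβ0, ?_⟩
  intro x hx y hy
  -- lower bound along both rays
  have low : ∀ {ci βi Ci t : ℝ}, c ≤ ci → β ≤ βi → Ci ≤ C → 0 ≤ t →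
      c * (t ^ β - 1) - C ≤ ci * t ^ βi - Ci := by
    intro ci βi Ci t g1 g2 g3 g4
    have g5 := rpow_sub_one_le g4 hβ0 g2
    have g6 : c * (t ^ β - 1) ≤ c * t ^ βi := mul_le_mul_of_nonneg_left g5 hc0.le
    have g7 : c * t ^ βi ≤ ci * t ^ βi :=
      mul_le_mul_of_nonneg_right g1 (Real.rpow_nonneg g4 _)
    linarith
  obtain ⟨t, ht, hcase⟩ := h2 w w' (pt x) (pt y) hw hw' hww hx hy
  set δ : ℝ := dst x y with hδ
  have hδ0 : 0 ≤ δ := dst_nonneg x y
  have hδe : ‖pt x - pt y‖ = δ := rfl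
  rw [hδe] at hcase
  set J : ℝ := Metric.infDist (pt x) (frontier Ω) with hJ
  have hJ0 : 0 ≤ J := Metric.infDist_nonneg
  have main : ∃ ω : ℂ, ‖ω‖ = 1 ∧ ‖pt x - t * ω‖ ≤ δ ∧
      c * (t ^ β - 1) - C ≤ Metric.infDist (t * ω) (frontier Ω) := by
    rcases hcase with h | h
    · refine ⟨w, hw, h, ?_⟩
      rw [h5 Ω _ hne hne']
      exact (low (min_le_right _ _) hβ_b2 hCC2 ht).trans ((H2 t ht).trans (le_max_left _ _))
    · refine ⟨w', hw', h, ?_⟩
      rw [h5 Ω _ hne hne']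
      exact (low (min_le_left _ _) hβ_b1 hCC1 ht).trans ((H1 t ht).trans (le_max_right _ _))
  obtain ⟨ω, hω, hd, hlow⟩ := main
  have k1 : Metric.infDist (t * ω) (frontier Ω) ≤ J + δ := by
    have := Metric.infDist_le_infDist_add_dist (s := frontier Ω) (x := (t : ℂ) * ω) (y := pt x)
    rw [dist_comm, dist_eq_norm] at this
    linarith
  have k2 : ‖pt x‖ ≤ t + δ := by
    have e1 : pt x = t * ω + (pt x - t * ω) := by ring
    have e2 : ‖(t : ℂ) * ω‖ = t := by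
      rw [norm_mul, hω, mul_one, Complex.norm_real, Real.norm_of_nonneg ht]
    calc ‖pt x‖ = ‖t * ω + (pt x - t * ω)‖ := by rw [← e1]
      _ ≤ ‖(t : ℂ) * ω‖ + ‖pt x - t * ω‖ := norm_add_le _ _
      _ ≤ t + δ := by rw [e2]; linarith
  have k3 : (1 + ‖pt x‖) ^ β ≤ 1 + t ^ β + δ ^ β := by
    have g1 : (1 + ‖pt x‖) ^ β ≤ ((1 + t) + δ) ^ β :=
      Real.rpow_le_rpow (by positivity) (by linarith) hβ0.le
    have g2 := Real.rpow_add_le_add_rpow (a := 1 + t) (b := δ) (p := β) (by positivity) hδ0 hβ0.le hβ_1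
    have g3 := Real.rpow_add_le_add_rpow (a := 1) (b := t) (p := β) zero_le_one ht hβ0.le hβ_1
    rw [Real.one_rpow] at g3
    linarith
  have k4 := rpow_sub_one_le hδ0 hβ0 hβ_1
  rw [Real.rpow_one] at k4
  have k5 : t ^ β ≤ (J + δ + C) / c + 1 := by
    have g1 : c * (t ^ β - 1) ≤ J + δ + C := by linarith
    have g2 : t ^ β - 1 ≤ (J + δ + C) / c := by
      rw [le_div_iff₀ hc0]; linarith
    linarith
  have k6 : (1 + ‖pt x‖) ^ β ≤ K * (1 + δ + J) := by
    have e1 : (J + δ + C) / c = J / c + δ / c + C / c := by ring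
    have e2 : K * (1 + δ + J) = 3 + C / c + 1 / c + (3 + C / c) * δ + δ / c + (3 + C / c) * J + J / c := by
      rw [hK]; ring
    have p1 : 0 ≤ C / c := by positivity
    have p2 : 0 ≤ 1 / c := by positivity
    have p3 : 0 ≤ (2 + C / c) * δ := by positivity
    have p4 : 0 ≤ (3 + C / c) * J := by positivity
    rw [e2]
    rw [e1] at k5
    nlinarith
  rw [one_div, inv_mul_le_iff₀ hK0]
  exact k6

end Pool.Agent.W583.FKM
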