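import Pool.Agent.W583.FKM.BFun

/-!
# The functions `h` and `b` for a sector (FK-GEOH)
-/

set_option autoImplicit false

open scoped ComplexConjugate Topology
open Complex

namespace Pool.Agent.W583.FKM

open Pool.Agent.W809.FKM

/-- direction of a nonzero complex number has norm one -/
theorem norm_dir {z : ℂ} (hz : z ≠ 0) : ‖z / (‖z‖ : ℂ)‖ = 1 := by
  have h1 : 0 < ‖z‖ := norm_pos_iff.2 hz
  rw [norm_div, Complex.norm_real, Real.norm_of_nonneg h1.le, div_self h1.ne']

theorem ang_dir (w : ℂ) {z : ℂ} (hz : z ≠ 0) : ang w (z / (‖z‖ : ℂ)) = ang w z := by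
  have h1 : 0 < ‖z‖ := norm_pos_iff.2 hz
  have e : z / (‖z‖ : ℂ) = ((‖z‖⁻¹ : ℝ) : ℂ) * z := by
    push_cast
    rw [div_eq_mul_inv, mul_comm]
  rw [e, ang_scale w z (inv_pos.2 h1)]

/-- points near a far point of the ray `ω` have direction near `ω` -/
theorem near_ray {ω z : ℂ} {t r D : ℝ} (hω : ‖ω‖ = 1) (hr : 0 < r) (hD : 0 < D)
    (ht : 3 * r + 1 ≤ t) (ht2 : 24 * r / D ≤ t) (hz : ‖z - t * ω‖ ≤ 3 * r) :
    z ≠ 0 ∧ ‖z / (‖z‖ : ℂ) - ω‖ ≤ D / 4 := by
  have ht0 : 0 < t := by linarith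
  have e1 : ‖(t : ℂ) * ω‖ = t := by
    rw [norm_mul, hω, mul_one, Complex.norm_real, Real.norm_of_nonneg ht0.le]
  have htω : (t : ℂ) * ω ≠ 0 := by
    rw [← norm_pos_iff, e1]; exact ht0
  have hz0 : z ≠ 0 := by
    intro h0
    rw [h0, zero_sub, norm_neg, e1] at hz
    linarith
  refine ⟨hz0, ?_⟩
  have h1 := dir_lip htω hz0
  have e2 : (t : ℂ) * ω / (‖(t : ℂ) * ω‖ : ℂ) = ω := by
    rw [e1]
    have : (t : ℂ) ≠ 0 := by exact_mod_cast ht0.ne'
    field_simp
  rw [e2, e1] at h1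
  rw [norm_sub_rev]
  refine h1.trans ?_
  rw [div_le_iff₀ ht0]
  rw [div_le_iff₀ hD] at ht2
  rw [norm_sub_rev] at hz
  linarith

theorem geoh (hC : S_CROSS) : S_GEOH := by
  intro Ω w w' R hw hw' hww hdeep' hdeep hR
  have hD : 0 < ‖w' - w‖ := norm_pos_iff.2 (sub_ne_zero.2 hww.symm)
  set D : ℝ := ‖w' - w‖ with hDdef
  have hpi := Real.pi_pos
  classical
  let h : W809.FKM.Lat → ℝ := fun x => eta D w (pt x / (‖pt x‖ : ℂ))
  let b : W809.FKM.Lat → ℝ := fun x => if x = 0 then 2 * Real.pi *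
    (R.indicator (fun x => (h x) ^ 2) x) else BF w w' (pt x / (‖pt x‖ : ℂ))
  have hh0 : ∀ x, 0 ≤ h x := fun x => eta_nonneg _ _ _
  have hh1 : ∀ x, h x ≤ 1 := fun x => eta_le_one _ _ _
  have hb_ne : ∀ x, x ≠ 0 → b x = BF w w' (pt x / (‖pt x‖ : ℂ)) := fun x hx => if_neg hx
  have hb_0 : b 0 = 2 * Real.pi * (R.indicator (fun x => (h x) ^ 2) 0) := if_pos rfl
  have pt0 : pt (0 : W809.FKM.Lat) = 0 := by simp [pt]
  have ne0 : ∀ {x : W809.FKM.Lat}, pt x ≠ 0 → x ≠ 0 := fun {x} hx h0 => hx (by rw [h0, pt0])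
  refine ⟨h, b, fun x => ⟨hh0 x, hh1 x⟩, ?_, ?_, ⟨5 * Real.pi, ?_⟩, ?_, ?_⟩
  · -- SV h
    intro ρ ε hρ hε
    obtain ⟨n, hn, H⟩ := dir_close hρ (show 0 < ε * D / 2 by positivity)
    refine ⟨n, fun x y hx hxy => ?_⟩
    obtain ⟨h1, h2, h3⟩ := H x y hx hxy
    have e : ‖((h x : ℝ) : ℂ) - ((h y : ℝ) : ℂ)‖ = |h x - h y| := by
      rw [← Complex.ofReal_sub, Complex.norm_real, Real.norm_eq_abs]
    change ‖((h x : ℝ) : ℂ) - ((h y : ℝ) : ℂ)‖ ≤ ε
    rw [e]
    refine (eta_lip hD w _ _).trans ?_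
    calc 2 / D * ‖pt x / (‖pt x‖ : ℂ) - pt y / (‖pt y‖ : ℂ)‖ ≤ 2 / D * (ε * D / 2) :=
          mul_le_mul_of_nonneg_left h3 (by positivity)
      _ = ε := by field_simp
  · -- SV b
    intro ρ ε hρ hε
    obtain ⟨δ, hδ, Hδ⟩ := BF_unif hw hw' hww hε
    obtain ⟨n, hn, H⟩ := dir_close hρ hδ
    refine ⟨n, fun x y hx hxy => ?_⟩
    obtain ⟨h1, h2, h3⟩ := H x y hx hxy
    have e : ‖((b x : ℝ) : ℂ) - ((b y : ℝ) : ℂ)‖ = |b x - b y| := by
      rw [← Complex.ofReal_sub, Complex.norm_real, Real.norm_eq_abs]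
    change ‖((b x : ℝ) : ℂ) - ((b y : ℝ) : ℂ)‖ ≤ ε
    rw [e, hb_ne x (ne0 h1), hb_ne y (ne0 h2)]
    exact Hδ _ _ (norm_dir h1) (norm_dir h2) h3
  · intro x
    by_cases hx : x = 0
    · rw [hx, hb_0]
      have h1 : 0 ≤ R.indicator (fun x => (h x) ^ 2) 0 :=
        Set.indicator_nonneg (fun x _ => sq_nonneg _) _
      have h2 : R.indicator (fun x => (h x) ^ 2) 0 ≤ 1 := by
        by_cases h0 : (0 : W809.FKM.Lat) ∈ R
        · rw [Set.indicator_of_mem h0]
          nlinarith [hh0 0, hh1 0]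
        · rw [Set.indicator_of_notMem h0]; exact zero_le_one
      rw [abs_of_nonneg (by positivity)]
      nlinarith
    · rw [hb_ne x hx]; exact BF_bound w w' _
  · -- the identity
    intro x
    by_cases hx : x = 0
    · subst hx
      rw [hb_0, pt0, Complex.arg_zero]
      rw [Complex.ofReal_zero, mul_zero, Complex.exp_zero, one_mul]
      congr 1
      by_cases h0 : (0 : W809.FKM.Lat) ∈ R
      · rw [Set.indicator_of_mem h0, Set.indicator_of_mem h0]
        push_cast; ring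
      · rw [Set.indicator_of_notMem h0, Set.indicator_of_notMem h0]
        push_cast; ring
    · have hz : pt x ≠ 0 := pt_ne_zero hx
      have hdir := norm_dir hz
      rw [hb_ne x hx, exp_arg hz]
      have hp := polar (z := pt x / (‖pt x‖ : ℂ)) hw
      rw [hdir, Complex.ofReal_one, one_mul] at hp
      set s : ℂ := pt x / (‖pt x‖ : ℂ) with hs
      have hang : ang w s = ang w (pt x) := ang_dir w hz
      have hwe : w = exp (I * (arg w : ℂ)) := by
        have hw0 : w ≠ 0 := by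
          intro h0; rw [h0, norm_zero] at hw; exact zero_ne_one hw
        rw [exp_arg hw0, hw, Complex.ofReal_one, div_one]
      have hfin : ∀ k : ℝ, s * exp (I * ((2 * Real.pi * k - ang w s - arg w : ℝ) : ℂ)) =
          exp (2 * Real.pi * I * (k : ℂ)) := by
        intro k
        have : exp (2 * Real.pi * I * (k : ℂ)) = exp (I * (arg w : ℂ)) *
            exp (I * (ang w s : ℂ)) * exp (I * ((2 * Real.pi * k - ang w s - arg w : ℝ) : ℂ)) := by
          rw [← Complex.exp_add, ← Complex.exp_add]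
          congr 1
          push_cast; ring
        rw [this, ← hwe, ← hp]
      by_cases hxR : x ∈ R
      · have h1 : ang w s < ang w w' := by
          rw [hang]; exact (hR x hx).1 hxR
        have h2 : BF w w' s = 2 * Real.pi * (h x) ^ 2 - ang w s - arg w := by
          rw [BF, if_pos h1]
        rw [Set.indicator_of_mem hxR, h2, hfin]
        push_cast
        rfl
      · have h1 : ¬ ang w s < ang w w' := by
          rw [hang]; exact fun h3 => hxR ((hR x hx).2 h3)
        have h2 : BF w w' s = 2 * Real.pi * 1 - ang w s - arg w := by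
          rw [BF, if_neg h1, mul_one]
        rw [Set.indicator_of_notMem hxR, h2, hfin]
        rw [Complex.ofReal_one, mul_one, mul_zero, Complex.exp_zero, Complex.exp_two_pi_mul_I]
  · -- near the two rays
    intro r hr
    obtain ⟨c1, β1, C1, hc1, hβ1, H1⟩ := hdeep'
    obtain ⟨c2, β2, C2, hc2, hβ2, H2⟩ := hdeep
    rw [compl_compl] at H2
    obtain ⟨n1, hn1⟩ := deep_large (C := C1) hc1 hβ1 (3 * r)
    obtain ⟨n2, hn2⟩ := deep_large (C := C2) hc2 hβ2 (3 * r)
    refine ⟨2 * r + max (max n1 n2) (max (24 * r / D) (3 * r + 1)), ?_⟩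
    rintro x ⟨y, hxy, hside⟩ hx
    have hxy' : ‖pt x - pt y‖ ≤ r := hxy
    have m1 := le_max_left (max n1 n2) (max (24 * r / D) (3 * r + 1))
    have m2 := le_max_right (max n1 n2) (max (24 * r / D) (3 * r + 1))
    have m3 := le_max_left n1 n2
    have m4 := le_max_right n1 n2
    have m5 := le_max_left (24 * r / D) (3 * r + 1)
    have m6 := le_max_right (24 * r / D) (3 * r + 1)
    have hx0 : pt x ≠ 0 := by
      rw [← norm_pos_iff]; linarith
    have hy0 : pt y ≠ 0 := by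
      intro h0
      rw [h0, sub_zero] at hxy'
      linarith
    -- a point of one of the two rays close to x
    have key : ∃ t : ℝ, 0 ≤ t ∧ ∃ ω : ℂ, (ω = w ∨ ω = w') ∧ ‖pt x - t * ω‖ ≤ 2 * r := by
      by_cases hxR : x ∈ R
      · have hyR : y ∉ R := hside.1 hxR
        obtain ⟨t, ht, hcase⟩ := hC w w' (pt x) (pt y) hw hw' hww ((hR x (ne0 hx0)).1 hxR)
          (fun h3 => hyR ((hR y (ne0 hy0)).2 h3))
        rcases hcase with h | h
        · exact ⟨t, ht, w, Or.inl rfl, by linarith⟩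
        · exact ⟨t, ht, w', Or.inr rfl, by linarith⟩
      · have hyR : y ∈ R := by
          by_contra h3
          exact hxR (hside.2 h3)
        obtain ⟨t, ht, hcase⟩ := hC w w' (pt y) (pt x) hw hw' hww ((hR y (ne0 hy0)).1 hyR)
          (fun h3 => hxR ((hR x (ne0 hx0)).2 h3))
        rw [norm_sub_rev (pt y) (pt x)] at hcase
        have tri : ∀ ω : ℂ, ‖pt y - t * ω‖ ≤ ‖pt x - pt y‖ → ‖pt x - t * ω‖ ≤ 2 * r := by
          intro ω hω
          have e : pt x - t * ω = (pt x - pt y) + (pt y - t * ω) := by ring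
          rw [e]
          refine (norm_add_le _ _).trans ?_
          linarith
        rcases hcase with h | h
        · exact ⟨t, ht, w, Or.inl rfl, tri w h⟩
        · exact ⟨t, ht, w', Or.inr rfl, tri w' h⟩
    obtain ⟨t, ht, ω, hω, hd⟩ := key
    have hω1 : ‖ω‖ = 1 := by rcases hω with rfl | rfl <;> assumption
    have ht1 : ‖pt x‖ - 2 * r ≤ t := by
      have e2 : ‖(t : ℂ) * ω‖ = t := by
        rw [norm_mul, hω1, mul_one, Complex.norm_real, Real.norm_of_nonneg ht]
      have e1 : pt x = t * ω + (pt x - t * ω) := by ring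
      have : ‖pt x‖ ≤ t + 2 * r := by
        calc ‖pt x‖ = ‖t * ω + (pt x - t * ω)‖ := by rw [← e1]
          _ ≤ ‖(t : ℂ) * ω‖ + ‖pt x - t * ω‖ := norm_add_le _ _
          _ ≤ t + 2 * r := by rw [e2]; linarith
      linarith
    have near : ∀ y' : W809.FKM.Lat, dst x y' ≤ r →
        pt y' ≠ 0 ∧ ‖pt y' / (‖pt y'‖ : ℂ) - ω‖ ≤ D / 4 := by
      intro y' hy'
      refine near_ray hω1 hr hD (t := t) (by linarith) (by linarith) ?_
      have hy'' : ‖pt x - pt y'‖ ≤ r := hy'
      have e : pt y' - t * ω = -(pt x - pt y') + (pt x - t * ω) := by ring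
      rw [e]
      refine (norm_add_le _ _).trans ?_
      rw [norm_neg]
      linarith
    have inf : ∀ T : Set ℂ, 3 * r ≤ Metric.infDist (t * ω) T → r ≤ Metric.infDist (pt x) T := by
      intro T hT
      have := Metric.infDist_le_infDist_add_dist (s := T) (x := (t : ℂ) * ω) (y := pt x)
      rw [dist_comm, dist_eq_norm] at this
      linarith
    rcases hω with rfl | rfl
    · right
      refine ⟨inf Ω ((hn2 t (by linarith)).trans (H2 t ht)), fun y' hy' => ?_⟩
      exact eta_zero hD (near y' hy').2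
    · left
      refine ⟨inf Ωᶜ ((hn1 t (by linarith)).trans (H1 t ht)), fun y' hy' => ?_⟩
      exact eta_one' hD (near y' hy').2

end Pool.Agent.W583.FKM
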