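import Pool.Agent.W809.FKM.Stms

/-!
# Distance to the frontier and the interface bound (FK-INT)
-/

set_option autoImplicit false

open scoped ComplexConjugate Topology
open Complex

namespace Pool.Agent.W583.FKM

open Pool.Agent.W809.FKM

theorem inter_frontier {s t : Set ℂ} (hs : IsPreconnected s) (h1 : (s ∩ t).Nonempty)
    (h2 : (s ∩ tᶜ).Nonempty) : (s ∩ frontier t).Nonempty := by
  by_contra hne
  have hno : ∀ x ∈ s, x ∉ frontier t := fun x hx hf => hne ⟨x, hx, hf⟩
  have hin : ∀ x ∈ s, x ∈ t → x ∈ interior t := by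
    intro x hx ht
    by_contra hi
    exact hno x hx ⟨subset_closure ht, hi⟩
  have hin' : ∀ x ∈ s, x ∈ tᶜ → x ∈ interior tᶜ := by
    intro x hx ht
    by_contra hi
    refine hno x hx ?_
    rw [← frontier_compl]
    exact ⟨subset_closure ht, hi⟩
  obtain ⟨x, hx, hxt⟩ := h1
  obtain ⟨z, hz, hzt⟩ := h2
  obtain ⟨p, hp, hp1, hp2⟩ := hs (interior t) (interior tᶜ) isOpen_interior isOpen_interior
    (fun p hp => by
      by_cases h : p ∈ t
      · exact Or.inl (hin p hp h)
      · exact Or.inr (hin' p hp h)) ⟨x, hx, hin x hx hxt⟩ ⟨z, hz, hin' z hz hzt⟩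
  exact (interior_subset hp2) (interior_subset hp1)

theorem front_aux (Ω : Set ℂ) (x : ℂ) (hx : x ∈ Ω) (hc : Ωᶜ.Nonempty) :
    Metric.infDist x (frontier Ω) = Metric.infDist x Ωᶜ := by
  have hfr : ∀ z ∈ Ωᶜ, ∃ p ∈ frontier Ω, dist x p ≤ dist x z := by
    intro z hz
    have h1 : IsPreconnected (segment ℝ x z) := (convex_segment x z).isPreconnected
    obtain ⟨p, hp1, hp2⟩ := inter_frontier h1 (t := Ω) ⟨x, left_mem_segment ℝ x z, hx⟩
      ⟨z, right_mem_segment ℝ x z, hz⟩
    refine ⟨p, hp2, ?_⟩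
    have h2 := dist_add_dist_of_mem_segment hp1
    have h3 := dist_nonneg (x := p) (y := z)
    linarith
  obtain ⟨z0, hz0⟩ := hc
  obtain ⟨p0, hp0, -⟩ := hfr z0 hz0
  apply le_antisymm
  · rw [Metric.le_infDist ⟨z0, hz0⟩]
    intro z hz
    obtain ⟨p, hp, hd⟩ := hfr z hz
    exact (Metric.infDist_le_dist_of_mem hp).trans hd
  · rw [← Metric.infDist_closure (s := Ωᶜ)]
    refine Metric.infDist_le_infDist_of_subset ?_ ⟨p0, hp0⟩
    rw [frontier_eq_closure_inter_closure]
    exact Set.inter_subset_right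

theorem front : S_FRONT := by
  intro Ω x hne hc
  by_cases hx : x ∈ Ω
  · rw [front_aux Ω x hx hc, Metric.infDist_zero_of_mem hx]
    exact (max_eq_right Metric.infDist_nonneg).symm
  · have h := front_aux Ωᶜ x hx (by rwa [compl_compl])
    rw [frontier_compl, compl_compl] at h
    rw [h, Metric.infDist_zero_of_mem (show x ∈ Ωᶜ from hx)]
    exact (max_eq_left Metric.infDist_nonneg).symm

theorem loc_bound {m : ℕ} {H : Op m} {ν a : ℝ} (ha : 0 < a) (hν : a ≤ ν)
    (h : KB H (fun x y => ν⁻¹ * Real.exp (-(ν * dst x y)))) (x y : W809.FKM.Lat) (v : Vm m) :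
    ‖(H (sg y v)) x‖ ≤ a⁻¹ * Real.exp (-(a * dst x y)) * ‖v‖ := by
  refine (h x y v).trans (mul_le_mul_of_nonneg_right ?_ (norm_nonneg _))
  have h1 : ν⁻¹ ≤ a⁻¹ := by
    rw [inv_le_inv₀ (ha.trans_le hν) ha]; exact hν
  have h2 : Real.exp (-(ν * dst x y)) ≤ Real.exp (-(a * dst x y)) := by
    rw [Real.exp_le_exp]
    have := mul_le_mul_of_nonneg_right hν (dst_nonneg x y)
    linarith
  exact mul_le_mul h1 h2 (Real.exp_pos _).le (inv_nonneg.2 ha.le)

theorem int : S_INT := by
  rintro m Hp Hm Hh Ω ⟨νp, hνp, hp⟩ ⟨νm, hνm, hm⟩ ⟨νh, hνh, hh⟩ ⟨ν, hν, hI⟩ hne hc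
  set a : ℝ := min (min νp νh) ν with ha
  have ha0 : 0 < a := lt_min (lt_min hνp hνh) hν
  have hap : a ≤ νp := (min_le_left _ _).trans (min_le_left _ _)
  have hah : a ≤ νh := (min_le_left _ _).trans (min_le_right _ _)
  have haν : a ≤ ν := min_le_right _ _
  have hK : 0 < a⁻¹ := inv_pos.2 ha0
  refine ⟨a / 4, 4 * a⁻¹, by positivity, fun x y v => ?_⟩
  have bp := loc_bound ha0 hap hp x y v
  have bh := loc_bound ha0 hah hh x y v
  set s : ℝ := dst x y with hs
  have hs0 : 0 ≤ s := dst_nonneg x y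
  set e : ℝ := Metric.infDist (pt y) Ωᶜ with he
  have he0 : 0 ≤ e := Metric.infDist_nonneg
  have hv : 0 ≤ ‖v‖ := norm_nonneg _
  have hsub : ((Hh - Hp) (sg y v)) x = (Hh (sg y v)) x - (Hp (sg y v)) x := rfl
  -- comparison of exponentials
  have cmp : ∀ t : ℝ, a / 4 * (s + e) ≤ t → Real.exp (-t) ≤ Real.exp (-(a / 4 * (s + e))) := by
    intro t ht
    rw [Real.exp_le_exp]; linarith
  set X : ℝ := Real.exp (-(a / 4 * (s + e))) with hX
  have hX0 : 0 < X := Real.exp_pos _
  by_cases hy : pt y ∈ Ω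
  · set S : Set W809.FKM.Lat := pt ⁻¹' Ω with hS
    have hyS : y ∈ S := hy
    have hyS' : y ∉ (pt ⁻¹' Ωᶜ : Set W809.FKM.Lat) := fun h => h hy
    have eE : ((Hh - Lam (pt ⁻¹' Ω) * Hp * Lam (pt ⁻¹' Ω) -
        Lam (pt ⁻¹' Ωᶜ) * Hm * Lam (pt ⁻¹' Ωᶜ) : Op m) (sg y v)) x =
        (Hh (sg y v)) x - (Lam S (Hp (sg y v))) x := by
      change (Hh (sg y v)) x - (Lam S (Hp (Lam S (sg y v)))) x -
        (Lam (pt ⁻¹' Ωᶜ) (Hm (Lam (pt ⁻¹' Ωᶜ) (sg y v)))) x = _
      rw [Lam_sg_mem hyS, Lam_sg_notMem hyS', map_zero, map_zero, zero_app, sub_zero]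
    have bE := hI x y v
    rw [eE] at bE
    have dd : e ≤ Metric.infDist (pt x) (frontier Ω) + s := by
      have h1 : Metric.infDist (pt y) (frontier Ω) ≤ Metric.infDist (pt x) (frontier Ω) + s := by
        have := Metric.infDist_le_infDist_add_dist (s := frontier Ω) (x := pt y) (y := pt x)
        rw [dist_comm, dist_eq_norm] at this
        exact this
      have h2 := front Ω (pt y) hne hc
      have h3 : e ≤ Metric.infDist (pt y) (frontier Ω) := by
        rw [h2]; exact le_max_right _ _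
      exact h3.trans h1
    set d : ℝ := Metric.infDist (pt x) (frontier Ω) with hd
    have hd0 : 0 ≤ d := Metric.infDist_nonneg
    have bE' : ‖(Hh (sg y v)) x - (Lam S (Hp (sg y v))) x‖ ≤ 2 * a⁻¹ * X * ‖v‖ := by
      rcases le_total s d with hsd | hsd
      · refine bE.trans (mul_le_mul_of_nonneg_right ?_ hv)
        have h1 : ν⁻¹ ≤ a⁻¹ := by
          rw [inv_le_inv₀ hν ha0]; exact haν
        have h2 : Real.exp (-(ν * d)) ≤ X := by
          refine cmp _ ?_
          have h3 : a * d ≤ ν * d := mul_le_mul_of_nonneg_right haν hd0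
          have h4 : a / 4 * (s + e) ≤ a / 4 * (4 * d) :=
            mul_le_mul_of_nonneg_left (by linarith) (by positivity)
          linarith
        calc ν⁻¹ * Real.exp (-(ν * d)) ≤ a⁻¹ * X :=
              mul_le_mul h1 h2 (Real.exp_pos _).le hK.le
          _ ≤ 2 * a⁻¹ * X := by nlinarith [mul_pos hK hX0]
      · have h2 : Real.exp (-(a * s)) ≤ X := by
          refine cmp _ ?_
          have h4 : a / 4 * (s + e) ≤ a / 4 * (4 * s) :=
            mul_le_mul_of_nonneg_left (by linarith) (by positivity)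
          linarith
        have b1 : ‖(Lam S (Hp (sg y v))) x‖ ≤ ‖(Hp (sg y v)) x‖ := by
          rw [Lam_app]
          by_cases hx : x ∈ S
          · rw [Set.indicator_of_mem hx]
          · rw [Set.indicator_of_notMem hx, norm_zero]; exact norm_nonneg _
        have b2 := norm_sub_le ((Hh (sg y v)) x) ((Lam S (Hp (sg y v))) x)
        have b3 : a⁻¹ * Real.exp (-(a * s)) * ‖v‖ ≤ a⁻¹ * X * ‖v‖ :=
          mul_le_mul_of_nonneg_right (mul_le_mul_of_nonneg_left h2 hK.le) hv
        linarith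
    have bR : ‖(Lam S (Hp (sg y v))) x - (Hp (sg y v)) x‖ ≤ a⁻¹ * X * ‖v‖ := by
      rw [Lam_app]
      by_cases hx : x ∈ S
      · rw [Set.indicator_of_mem hx, sub_self, norm_zero]
        positivity
      · rw [Set.indicator_of_notMem hx, zero_sub, norm_neg]
        refine bp.trans ?_
        have h1 : e ≤ s := by
          have h2 : Metric.infDist (pt y) Ωᶜ ≤ dist (pt y) (pt x) :=
            Metric.infDist_le_dist_of_mem (show pt x ∈ Ωᶜ from hx)
          rw [dist_comm, dist_eq_norm] at h2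
          exact h2
        have h2 : Real.exp (-(a * s)) ≤ X := by
          refine cmp _ ?_
          have h4 : a / 4 * (s + e) ≤ a / 4 * (4 * s) :=
            mul_le_mul_of_nonneg_left (by linarith) (by positivity)
          linarith
        exact mul_le_mul_of_nonneg_right (mul_le_mul_of_nonneg_left h2 hK.le) hv
    rw [hsub]
    have e3 : (Hh (sg y v)) x - (Hp (sg y v)) x =
        ((Hh (sg y v)) x - (Lam S (Hp (sg y v))) x) +
        ((Lam S (Hp (sg y v))) x - (Hp (sg y v)) x) := by abel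
    rw [e3]
    refine (norm_add_le _ _).trans ?_
    have : 0 ≤ a⁻¹ * X * ‖v‖ := by positivity
    linarith
  · have he1 : e = 0 := Metric.infDist_zero_of_mem (show pt y ∈ Ωᶜ from hy)
    rw [hsub]
    refine (norm_sub_le _ _).trans ?_
    have h2 : Real.exp (-(a * s)) ≤ X := by
      refine cmp _ ?_
      have h4 : a / 4 * (s + e) ≤ a / 4 * (4 * s) :=
        mul_le_mul_of_nonneg_left (by linarith) (by positivity)
      linarith
    have b3 : a⁻¹ * Real.exp (-(a * s)) * ‖v‖ ≤ a⁻¹ * X * ‖v‖ :=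
      mul_le_mul_of_nonneg_right (mul_le_mul_of_nonneg_left h2 hK.le) hv
    have : 0 ≤ a⁻¹ * X * ‖v‖ := by positivity
    linarith

end Pool.Agent.W583.FKM
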