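import Pool.Agent.W809.FKM.Stms

/-!
# Tail estimate (FK-TAIL)
-/

set_option autoImplicit false

open scoped ComplexConjugate Topology
open Complex

namespace Pool.Agent.W583.FKM

open Pool.Agent.W809.FKM

theorem tail : S_TAIL := by
  rintro m B ⟨b, hb0, hbs, hB⟩
  have hts : ∀ r : ℝ, Summable (fun z : W809.FKM.Lat => if r < ‖pt z‖ then b z else 0) := fun r =>
    Summable.of_nonneg_of_le (fun z => by split_ifs; exacts [hb0 z, le_rfl])
      (fun z => by split_ifs; exacts [le_rfl, hb0 z]) hbs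
  refine ⟨∑' z, b z, fun r => ∑' z : W809.FKM.Lat, if r < ‖pt z‖ then b z else 0,
    tsum_nonneg hb0, fun r => tsum_nonneg fun z => by split_ifs; exacts [hb0 z, le_rfl], ?_, ?_⟩
  · have h := tendsto_tsum_of_dominated_convergence (𝓕 := Filter.atTop)
      (f := fun (r : ℝ) (z : W809.FKM.Lat) => if r < ‖pt z‖ then b z else 0) (g := fun _ : W809.FKM.Lat => (0 : ℝ))
      (bound := b) hbs (fun z => by
        refine tendsto_const_nhds.congr' ?_
        filter_upwards [Filter.eventually_ge_atTop ‖pt z‖] with r hr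
        rw [if_neg (not_lt.2 hr)])
      (Filter.Eventually.of_forall fun r z => by
        split_ifs
        · rw [Real.norm_of_nonneg (hb0 z)]
        · rw [norm_zero]; exact hb0 z)
    simpa using h
  · intro D x r ε hε hD v
    have h1 := hasSum_op D (B (sg x v))
    have h2 : HasSum (fun y : W809.FKM.Lat => ε * b (y - x) * ‖v‖ +
        ‖D‖ * (if r < ‖pt (y - x)‖ then b (y - x) else 0) * ‖v‖)
        (ε * (∑' z, b z) * ‖v‖ + ‖D‖ * (∑' z : W809.FKM.Lat, if r < ‖pt z‖ then b z else 0) * ‖v‖) := by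
      have a1 : HasSum (fun y : W809.FKM.Lat => b (y - x)) (∑' z, b z) :=
        (Equiv.subRight x).hasSum_iff.2 hbs.hasSum
      have a2 : HasSum (fun y : W809.FKM.Lat => if r < ‖pt (y - x)‖ then b (y - x) else 0)
          (∑' z : W809.FKM.Lat, if r < ‖pt z‖ then b z else 0) :=
        (Equiv.subRight x).hasSum_iff.2 (hts r).hasSum
      exact ((a1.mul_left ε).mul_right ‖v‖).add ((a2.mul_left ‖D‖).mul_right ‖v‖)
    have h3 := h1.norm_le_of_bounded h2 (fun y => by
      have k1 : ‖(B (sg x v)) y‖ ≤ b (y - x) * ‖v‖ := hB y x v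
      have e1 : dst x y = ‖pt (y - x)‖ := by rw [dst_comm, dst_eq]
      by_cases hy : dst x y ≤ r
      · have k2 := hD y hy ((B (sg x v)) y)
        rw [if_neg (by rw [← e1]; exact not_lt.2 hy)]
        have k3 : ε * ‖(B (sg x v)) y‖ ≤ ε * (b (y - x) * ‖v‖) :=
          mul_le_mul_of_nonneg_left k1 hε
        linarith
      · have k2 : ‖D (sg y ((B (sg x v)) y))‖ ≤ ‖D‖ * ‖(B (sg x v)) y‖ := by
          have := D.le_opNorm (sg y ((B (sg x v)) y))
          rwa [norm_sg] at this
        rw [if_pos (by rw [← e1]; exact not_le.1 hy)]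
        have k3 : ‖D‖ * ‖(B (sg x v)) y‖ ≤ ‖D‖ * (b (y - x) * ‖v‖) :=
          mul_le_mul_of_nonneg_left k1 (norm_nonneg _)
        have k4 : 0 ≤ ε * b (y - x) * ‖v‖ :=
          mul_nonneg (mul_nonneg hε (hb0 _)) (norm_nonneg _)
        linarith)
    refine h3.trans (le_of_eq ?_)
    ring

end Pool.Agent.W583.FKM
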