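import Pool.Agent.W583.FKM.Dir

/-!
# Homotopy `P U e^{isb} P + 1 - P` (FK-TOPC)
-/

set_option autoImplicit false

open scoped ComplexConjugate Topology
open Complex

namespace Pool.Agent.W583.FKM

open Pool.Agent.W809.FKM

theorem topc (h1 : S_SVC) (h2 : S_PAR) : S_TOPC := by
  rintro m Θ P b hΘ hX hPP hPs hPT hPW hbSV ⟨C, hC⟩
  have hC0 : 0 ≤ C := (abs_nonneg _).trans (hC 0)
  -- the family of unimodular functions
  let u : ℝ → W809.FKM.Lat → ℂ := fun s x =>
    exp (I * (arg (pt x) : ℂ)) * exp (I * ((s * b x : ℝ) : ℂ))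
  have hu1 : ∀ s x, ‖u s x‖ = 1 := fun s x => by
    change ‖exp (I * (arg (pt x) : ℂ)) * exp (I * ((s * b x : ℝ) : ℂ))‖ = 1
    rw [norm_mul, norm_expI, norm_expI, one_mul]
  have hu : ∀ s x, ‖u s x‖ ≤ 1 := fun s x => (hu1 s x).le
  have huSV : ∀ s, SV (u s) := fun s =>
    SV_mul sv_arg (sv_exp hbSV s) (fun x => (norm_expI _).le) (fun x => (norm_expI _).le)
  have hdiff : ∀ s t x, ‖u s x - u t x‖ ≤ |s - t| * C := by
    intro s t x
    have e : u s x - u t x = exp (I * (arg (pt x) : ℂ)) *
        (exp (I * ((s * b x : ℝ) : ℂ)) - exp (I * ((t * b x : ℝ) : ℂ))) := by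
      change exp (I * (arg (pt x) : ℂ)) * exp (I * ((s * b x : ℝ) : ℂ)) -
        exp (I * (arg (pt x) : ℂ)) * exp (I * ((t * b x : ℝ) : ℂ)) = _
      ring
    rw [e, norm_mul, norm_expI, one_mul]
    refine (norm_expI_sub _ _).trans ?_
    rw [← sub_mul, abs_mul]
    exact mul_le_mul_of_nonneg_left (hC x) (abs_nonneg _)
  let V : ℝ → Op m := fun s => M (u s)
  have hVc : Continuous V := by
    have hL : LipschitzWith (Real.toNNReal C) V := by
      refine LipschitzWith.of_dist_le_mul fun s t => ?_
      rw [dist_eq_norm, Real.coe_toNNReal _ hC0, Real.dist_eq]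
      change ‖(M (u s) - M (u t) : Op m)‖ ≤ _
      rw [M_sub (hu s) (hu t)]
      have := norm_M_le (m := m) (hdiff s t)
      linarith
    exact hL.continuous
  let F : ℝ → Op m := fun s => P * V s * P + (1 - P)
  have hFc : Continuous F := by
    have h3 : Continuous fun s => P * V s * P := (continuous_const.mul hVc).mul continuous_const
    exact h3.add continuous_const
  have hVV : ∀ s, star (V s) * V s = 1 := by
    intro s
    change star (M (u s)) * M (u s) = (1 : Op m)
    have hu' : ∀ x, ‖conj (u s x)‖ ≤ 1 := fun x => by rw [RCLike.norm_conj]; exact hu s x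
    rw [star_M (hu s), M_mul hu' (hu s), ← M_one]
    congr 1
    funext x
    rw [mul_comm, Complex.mul_conj, Complex.normSq_eq_norm_sq, hu1]
    norm_num
  have hodd : ∀ s, OddT Θ (F s) := by
    intro s
    refine OddT.add (OddT.conj (odd_M hX (hu s)) hPT hPs) ?_
    exact (TRS.one.sub hPT).odd (by rw [star_sub, star_one, hPs])
  have hcomp : ∀ s, IsCompactOperator (star (F s) * F s - 1 : Op m) := by
    intro s
    have hc : IsCompactOperator (V s * P - P * V s : Op m) := by
      have h3 := cpt_neg (h1 m P (u s) 1 hPW (huSV s) (hu s))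
      have e : (V s * P - P * V s : Op m) = -(P * M (u s) - M (u s) * P) := by
        change (M (u s) * P - P * M (u s) : Op m) = _
        abel
      rw [e]
      exact h3
    exact ess_of_comm (hVV s) hPP hPs hc
  have hpar := h2 (HS m) Θ F hΘ hFc hodd hcomp
  have e0 : F 0 = P * U * P + (1 - P) := by
    change P * M (u 0) * P + (1 - P) = P * M (fun x => exp (I * (arg (pt x) : ℂ))) * P + (1 - P)
    have : u 0 = fun x => exp (I * (arg (pt x) : ℂ)) := by
      funext x
      change exp (I * (arg (pt x) : ℂ)) * exp (I * ((0 * b x : ℝ) : ℂ)) = _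
      rw [zero_mul, Complex.ofReal_zero, mul_zero, Complex.exp_zero, mul_one]
    rw [this]
  have e1 : F 1 = P * M (fun x => exp (I * arg (pt x)) * exp (I * b x)) * P + (1 - P) := by
    change P * M (u 1) * P + (1 - P) = _
    have : u 1 = fun x => exp (I * arg (pt x)) * exp (I * b x) := by
      funext x
      change exp (I * (arg (pt x) : ℂ)) * exp (I * ((1 * b x : ℝ) : ℂ)) = _
      rw [one_mul]
    rw [this]
  rw [← e1, ← e0]
  exact hpar.symm

end Pool.Agent.W583.FKM
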